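import Mathlib

set_option autoImplicit false

/-! Hilbert space lemmas. -/

open scoped BigOperators ComplexConjugate ComplexOrder InnerProductSpace
open Filter Topology

namespace Pool.Agent.H159.MinC

/-- a kernel is a Gram kernel -/
theorem exists_gram {X : Type} (F : X → X → ℂ)
    (hF : ∀ (n : ℕ) (z : Fin n → X), (Matrix.of fun i j => F (z i) (z j)).PosSemidef) :
    ∃ (H : Type) (_ : NormedAddCommGroup H) (_ : InnerProductSpace ℂ H) (_ : CompleteSpace H)
      (lam : X → H), ∀ x y, inner ℂ (lam x) (lam y) = F x y := by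
  classical
  set K : Matrix X X (ℂ →L[ℂ] ℂ) :=
    Matrix.of fun x y => F x y • ContinuousLinearMap.id ℂ ℂ with hKdef
  have hS : ∀ S : Finset X, (Matrix.of fun i j : S => F i j).PosSemidef := by
    intro S
    have h := (hF S.card (fun i => (S.equivFin.symm i : X))).submatrix S.equivFin
    have e : (Matrix.of fun i j : S => F i j) = (Matrix.of fun i j : Fin S.card =>
        F (S.equivFin.symm i) (S.equivFin.symm j)).submatrix S.equivFin S.equivFin := by
      ext i j; simp
    rw [e]; exact h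
  have hherm : ∀ x y, conj (F y x) = F x y := by
    intro x y
    have h := congrFun (congrFun (hF 2 ![x, y]).1 0) 1
    simpa using h
  have hpsd : K.PosSemidef := by
    have key : K.PosSemidef ↔ K.IsHermitian ∧
        ∀ (vv : X →₀ ℂ), 0 ≤ RCLike.re (vv.sum fun x w ↦
          vv.sum fun x' w' ↦ ⟪K x' x w, w'⟫_ℂ) := RKHS.posSemidef_tfae.out 0 2
    refine key.mpr ⟨?_, fun vv => ?_⟩
    · refine Matrix.ext fun x y => ?_
      rw [Matrix.conjTranspose_apply]
      apply ContinuousLinearMap.ext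
      intro v
      apply ext_inner_right ℂ
      intro w
      rw [ContinuousLinearMap.star_eq_adjoint, ContinuousLinearMap.adjoint_inner_left]
      simp only [hKdef, Matrix.of_apply, _root_.smul_apply, ContinuousLinearMap.id_apply,
        inner_smul_left, inner_smul_right, hherm]
    · have h1 := (hS vv.support).dotProduct_mulVec_nonneg (fun i => vv i)
      have h2 : (vv.sum fun x w ↦ vv.sum fun x' w' ↦ ⟪K x' x w, w'⟫_ℂ)
          = (star (fun i : vv.support => vv i) ⬝ᵥ
            ((Matrix.of fun i j : vv.support => F i j).mulVec (fun i : vv.support => vv i))) := by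
        simp only [Finsupp.sum, dotProduct, Matrix.mulVec, Matrix.of_apply, Pi.star_apply]
        rw [← Finset.sum_coe_sort]
        refine Finset.sum_congr rfl fun i _ => ?_
        rw [← Finset.sum_coe_sort vv.support, Finset.mul_sum]
        refine Finset.sum_congr rfl fun j _ => ?_
        simp only [hKdef, Matrix.of_apply, _root_.smul_apply, ContinuousLinearMap.id_apply,
          smul_eq_mul, RCLike.inner_apply, map_mul, hherm, RCLike.star_def]
        ring
      rw [h2]
      exact (Complex.nonneg_iff.1 h1).1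
  have : Fact K.PosSemidef := ⟨hpsd⟩
  refine ⟨RKHS.OfKernel K, inferInstance, inferInstance, inferInstance,
    fun x => RKHS.kerFun (RKHS.OfKernel K) x 1, fun x y => ?_⟩
  rw [← RKHS.kernel_inner, RKHS.OfKernel.kernel_ofKernel]
  simp only [hKdef, Matrix.of_apply, _root_.smul_apply, ContinuousLinearMap.id_apply,
    smul_eq_mul, RCLike.inner_apply, hherm, mul_one, one_mul]

/-- rank one domination -/
theorem riesz_dom {X : Type*} {E : Type*} [NormedAddCommGroup E] [InnerProductSpace ℂ E]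
    [CompleteSpace E] (κ : X → E) (g : X → ℂ)
    (h : ∀ c : X →₀ ℂ, ‖Finsupp.linearCombination ℂ g c‖ ≤ ‖Finsupp.linearCombination ℂ κ c‖) :
    ∃ Ψ : E, ‖Ψ‖ ≤ 1 ∧ ∀ x, inner ℂ Ψ (κ x) = g x := by
  classical
  set T := Finsupp.linearCombination ℂ κ with hT
  set G := Finsupp.linearCombination ℂ g with hG
  have hker : LinearMap.ker T ≤ LinearMap.ker G := by
    intro c hc
    rw [LinearMap.mem_ker] at hc ⊢
    have := h c
    rw [hc, norm_zero] at this
    exact norm_le_zero_iff.1 this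
  set f : LinearMap.range T →ₗ[ℂ] ℂ :=
    ((LinearMap.ker T).liftQ G hker) ∘ₗ
      (T.quotKerEquivRange.symm : LinearMap.range T →ₗ[ℂ] ((X →₀ ℂ) ⧸ LinearMap.ker T)) with hf
  have hfa : ∀ c, f ⟨T c, LinearMap.mem_range_self T c⟩ = G c := by
    intro c
    rw [hf, LinearMap.comp_apply]
    have : (T.quotKerEquivRange.symm : LinearMap.range T →ₗ[ℂ] ((X →₀ ℂ) ⧸ LinearMap.ker T))
        ⟨T c, LinearMap.mem_range_self T c⟩ = Submodule.Quotient.mk c := by
      rw [LinearEquiv.coe_coe, LinearEquiv.symm_apply_eq]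
      rfl
    rw [this]
    exact Submodule.liftQ_apply _ _ _
  have hbd : ∀ y : LinearMap.range T, ‖f y‖ ≤ 1 * ‖y‖ := by
    rintro ⟨y, c, rfl⟩
    rw [hfa c, one_mul]
    exact h c
  obtain ⟨L, hL, hLn⟩ := exists_extension_norm_eq (LinearMap.range T) (f.mkContinuous 1 hbd)
  refine ⟨(InnerProductSpace.toDual ℂ E).symm L, ?_, fun x => ?_⟩
  · rw [LinearIsometryEquiv.norm_map, hLn]
    exact LinearMap.mkContinuous_norm_le _ zero_le_one _
  · rw [InnerProductSpace.toDual_symm_apply]
    have h1 : κ x = T (Finsupp.single x 1) := by rw [hT, Finsupp.linearCombination_single, one_smul]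
    have h2 := hL ⟨T (Finsupp.single x 1), LinearMap.mem_range_self T _⟩
    rw [h1]
    simp only at h2
    rw [h2]
    change f _ = _
    rw [hfa, hG, Finsupp.linearCombination_single, one_smul]

section parseval

variable {H : Type*} [NormedAddCommGroup H] [InnerProductSpace ℂ H]

lemma orth {K : ℕ} (hK : 0 < K) {ω : ℂ} (hω : IsPrimitiveRoot ω K) {n m : ℕ} (hn : n < K)
    (hm : m < K) : ∑ j ∈ Finset.range K, (conj (ω ^ n) * ω ^ m) ^ j = if n = m then (K : ℂ) else 0 := by
  have hnorm : ‖ω‖ = 1 := hω.norm'_eq_one hK.ne'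
  have hω0 : ω ≠ 0 := by
    intro h; rw [h, norm_zero] at hnorm; exact zero_ne_one hnorm
  have hc : conj ω * ω = 1 := by
    rw [mul_comm, Complex.mul_conj, Complex.normSq_eq_norm_sq, hnorm]; norm_num
  split_ifs with h
  · subst h
    have : conj (ω ^ n) * ω ^ n = 1 := by rw [map_pow, ← mul_pow, hc, one_pow]
    rw [this]; simp
  · set x := conj (ω ^ n) * ω ^ m with hx
    have hx1 : x ≠ 1 := by
      intro hx1
      have : ω ^ m = ω ^ n := by
        have h2 : ω ^ n * x = ω ^ m := by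
          rw [hx, ← mul_assoc, map_pow, ← mul_pow, mul_comm ω, hc, one_pow, one_mul]
        rw [← h2, hx1, mul_one]
      exact h (hω.pow_inj hn hm this.symm)
    have hxK : x ^ K = 1 := by
      rw [hx, mul_pow, ← map_pow, ← pow_mul, ← pow_mul, mul_comm n, mul_comm m, pow_mul, pow_mul,
        hω.pow_eq_one]
      simp
    have := geom_sum_eq hx1 K
    rw [this, hxK]; simp

lemma dparseval {K : ℕ} (hK : 0 < K) {ω : ℂ} (hω : IsPrimitiveRoot ω K) (b : ℕ → H) :
    ∑ j ∈ Finset.range K, ‖∑ n ∈ Finset.range K, ((ω ^ j) ^ n) • b n‖ ^ 2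
      = K * ∑ n ∈ Finset.range K, ‖b n‖ ^ 2 := by
  have key : ((∑ j ∈ Finset.range K, ‖∑ n ∈ Finset.range K, ((ω ^ j) ^ n) • b n‖ ^ 2 : ℝ) : ℂ)
      = ((K * ∑ n ∈ Finset.range K, ‖b n‖ ^ 2 : ℝ) : ℂ) := by
    push_cast
    have e1 : ∀ x : H, ((‖x‖ : ℂ)) ^ 2 = inner ℂ x x := fun x => (inner_self_eq_norm_sq_to_K x).symm
    simp only [e1]
    simp only [sum_inner, inner_sum, inner_smul_left, inner_smul_right, Finset.mul_sum]
    rw [Finset.sum_comm]
    refine Finset.sum_congr rfl fun n hn => ?_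
    rw [Finset.sum_comm]
    have hn' := Finset.mem_range.1 hn
    have e2 : ∀ m ∈ Finset.range K, ∑ j ∈ Finset.range K, (ω ^ j) ^ n * (conj ((ω ^ j) ^ m) *
        inner ℂ (b m) (b n)) = (if m = n then (K : ℂ) else 0) * inner ℂ (b m) (b n) := by
      intro m hm
      rw [← orth hK hω (Finset.mem_range.1 hm) hn', Finset.sum_mul]
      refine Finset.sum_congr rfl fun j _ => ?_
      rw [mul_pow, ← map_pow, ← pow_mul, ← pow_mul, ← pow_mul, ← pow_mul, mul_comm j n, mul_comm j m]
      ring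
    rw [Finset.sum_congr rfl e2]
    rw [Finset.sum_eq_single n]
    · simp
    · intro m _ hm
      rw [if_neg hm, zero_mul]
    · intro h; exact absurd hn h
  exact_mod_cast key

/-- averaging over a circle -/
theorem avg [CompleteSpace H] {a : ℕ → H} {r m : ℝ} (hr : 0 ≤ r) (hs : Summable fun n => ‖a n‖ * r ^ n)
    (hs2 : Summable fun n => ‖a n‖ ^ 2 * r ^ (2 * n))
    (h : ∀ z : ℂ, ‖z‖ = r → m ≤ ‖∑' n, z ^ n • a n‖) (hm : 0 ≤ m) :
    m ^ 2 ≤ ∑' n, ‖a n‖ ^ 2 * r ^ (2 * n) := by
  set tau : ℕ → ℝ := fun K => ∑' n, ‖a (n + K)‖ * r ^ (n + K) with htau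
  have htau0 : Tendsto tau atTop (𝓝 0) := tendsto_sum_nat_add fun n => ‖a n‖ * r ^ n
  have hlim : Tendsto (fun K => (max 0 (m - tau K)) ^ 2) atTop (𝓝 (m ^ 2)) := by
    have h1 : Tendsto (fun K => max 0 (m - tau K)) atTop (𝓝 (max 0 (m - 0))) :=
      tendsto_const_nhds.max (tendsto_const_nhds.sub htau0)
    rw [sub_zero, max_eq_right hm] at h1
    exact h1.pow 2
  refine le_of_tendsto hlim ?_
  filter_upwards [eventually_gt_atTop 0] with K hK
  have hω : IsPrimitiveRoot (Complex.exp (2 * Real.pi * Complex.I / K)) K :=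
    Complex.isPrimitiveRoot_exp K hK.ne'
  set ω := Complex.exp (2 * Real.pi * Complex.I / K) with hωd
  have hnorm : ‖ω‖ = 1 := hω.norm'_eq_one hK.ne'
  have hpar := dparseval hK hω fun n => ((r : ℂ) ^ n) • a n
  have hpt : ∀ j ∈ Finset.range K, (max 0 (m - tau K)) ^ 2 ≤
      ‖∑ n ∈ Finset.range K, ((ω ^ j) ^ n) • (((r : ℂ) ^ n) • a n)‖ ^ 2 := by
    intro j _
    set z : ℂ := ω ^ j * r with hz
    have hzn : ‖z‖ = r := by
      rw [hz, norm_mul, norm_pow, hnorm, one_pow, one_mul, Complex.norm_real, Real.norm_of_nonneg hr]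
    have hsum : Summable fun n => z ^ n • a n := by
      refine Summable.of_norm ?_
      refine hs.congr fun n => ?_
      rw [norm_smul, norm_pow, hzn, mul_comm]
    have e1 : ∑ n ∈ Finset.range K, ((ω ^ j) ^ n) • (((r : ℂ) ^ n) • a n) =
        ∑ n ∈ Finset.range K, z ^ n • a n := by
      refine Finset.sum_congr rfl fun n _ => ?_
      rw [smul_smul, ← mul_pow]
    have e2 := hsum.sum_add_tsum_nat_add K
    have e3 : ‖∑' n, z ^ (n + K) • a (n + K)‖ ≤ tau K := by
      have hs' : Summable fun n => ‖a (n + K)‖ * r ^ (n + K) := (summable_nat_add_iff K).2 hs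
      refine tsum_of_norm_bounded hs'.hasSum fun n => ?_
      rw [norm_smul, norm_pow, hzn, mul_comm]
    have e4 := h z hzn
    rw [← e2] at e4
    have e5 : m - tau K ≤ ‖∑ n ∈ Finset.range K, z ^ n • a n‖ := by
      have := norm_add_le (∑ n ∈ Finset.range K, z ^ n • a n) (∑' n, z ^ (n + K) • a (n + K))
      linarith
    rw [e1]
    have e6 : max 0 (m - tau K) ≤ ‖∑ n ∈ Finset.range K, z ^ n • a n‖ := max_le (norm_nonneg _) e5
    exact pow_le_pow_left₀ (le_max_left _ _) e6 2
  have h1 := Finset.sum_le_sum hpt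
  rw [hpar, Finset.sum_const, Finset.card_range, nsmul_eq_mul] at h1
  have h2 := le_of_mul_le_mul_left h1 (by exact_mod_cast hK)
  refine h2.trans ?_
  have h3 : ∀ n, ‖((r : ℂ) ^ n) • a n‖ ^ 2 = ‖a n‖ ^ 2 * r ^ (2 * n) := by
    intro n
    rw [norm_smul, norm_pow, Complex.norm_real, Real.norm_of_nonneg hr, mul_pow, ← pow_mul,
      mul_comm n 2, mul_comm]
  simp only [h3]
  exact hs2.sum_le_tsum _ fun n _ => by positivity

end parseval

end Pool.Agent.H159.MinC
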