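import Mathlib
import Pool.Agent.H159.MinC.Hil

set_option autoImplicit false

/-! The structure of the coefficient sequence. -/

open scoped BigOperators ComplexConjugate ComplexOrder InnerProductSpace
open Filter Topology

namespace Pool.Agent.H159.MinC

variable {H : Type*} [NormedAddCommGroup H] [InnerProductSpace ℂ H] [CompleteSpace H]

lemma succ_lt_two_pow {n : ℕ} (hn : 2 ≤ n) : n + 1 < 2 ^ n := by
  induction n, hn using Nat.le_induction with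
  | base => norm_num
  | succ n _ ih => rw [pow_succ]; omega

lemma summable_succ_mul {r : ℝ} (hr : 0 ≤ r) (hr1 : r < 1) : Summable fun n : ℕ => ((n : ℝ) + 1) * r ^ n := by
  have h := (hasSum_choose_mul_geometric_of_norm_lt_one (𝕜 := ℝ) 1
    (r := r) (by rw [Real.norm_of_nonneg hr]; exact hr1)).summable
  refine h.congr fun n => ?_
  rw [Nat.choose_one_right]; push_cast; ring

theorem structure_psi (ψ : ℕ → H) (hs : Summable fun n => ‖ψ n‖ ^ 2) (h1 : ∑' n, ‖ψ n‖ ^ 2 ≤ 1)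
    (lam : ℂ → H) (hlam : ∀ z : ℂ, ‖z‖ ^ 2 < 1 / 2 → ‖lam z‖ < 1)
    (hrel : ∀ z : ℂ, ‖z‖ ^ 2 < 1 / 2 → HasSum (fun n : ℕ => ((Real.sqrt (n + 1) : ℝ) : ℂ) * z ^ n *
      inner ℂ (lam z) (ψ n)) ((Real.sqrt 2 : ℝ) * z)) :
    (∀ n, 2 ≤ n → ψ n = 0) ∧ ‖ψ 0‖ ^ 2 + ‖ψ 1‖ ^ 2 = 1 ∧ inner ℂ (ψ 0) (ψ 1) = (0 : ℂ) := by
  have hψ1 : ∀ n, ‖ψ n‖ ^ 2 ≤ 1 := fun n => (hs.le_tsum n fun _ _ => by positivity).trans h1
  have hψ1' : ∀ n, ‖ψ n‖ ≤ 1 := fun n => by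
    have := hψ1 n
    nlinarith [norm_nonneg (ψ n)]
  set a : ℕ → H := fun n => ((Real.sqrt (n + 1) : ℝ) : ℂ) • ψ n with ha
  have han : ∀ n, ‖a n‖ = Real.sqrt (n + 1) * ‖ψ n‖ := by
    intro n
    rw [ha]; simp only
    rw [norm_smul, Complex.norm_real, Real.norm_of_nonneg (Real.sqrt_nonneg _)]
  have han2 : ∀ n, ‖a n‖ ^ 2 = ((n : ℝ) + 1) * ‖ψ n‖ ^ 2 := by
    intro n
    rw [han, mul_pow, Real.sq_sqrt (by positivity)]
  have hsum1 : ∀ r : ℝ, 0 ≤ r → r < 1 → Summable fun n => ‖a n‖ * r ^ n := by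
    intro r hr hr1
    refine Summable.of_nonneg_of_le (fun n => by positivity) (fun n => ?_) (summable_succ_mul hr hr1)
    rw [han]
    have e1 : Real.sqrt ((n : ℝ) + 1) ≤ (n : ℝ) + 1 := by
      rw [Real.sqrt_le_left (by positivity)]
      nlinarith [Nat.cast_nonneg (α := ℝ) n]
    have e2 : Real.sqrt ((n : ℝ) + 1) * ‖ψ n‖ ≤ (n : ℝ) + 1 := by
      calc Real.sqrt ((n : ℝ) + 1) * ‖ψ n‖ ≤ ((n : ℝ) + 1) * 1 :=
            mul_le_mul e1 (hψ1' n) (norm_nonneg _) (by positivity)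
        _ = _ := mul_one _
    exact mul_le_mul_of_nonneg_right e2 (by positivity)
  have hsum2 : ∀ q : ℝ, 0 ≤ q → q < 1 → Summable fun n : ℕ => ((n : ℝ) + 1) * ‖ψ n‖ ^ 2 * q ^ n := by
    intro q hq hq1
    refine Summable.of_nonneg_of_le (fun n => by positivity) (fun n => ?_) (summable_succ_mul hq hq1)
    have : ((n : ℝ) + 1) * ‖ψ n‖ ^ 2 ≤ (n : ℝ) + 1 := by
      have := hψ1 n
      nlinarith [Nat.cast_nonneg (α := ℝ) n]
    exact mul_le_mul_of_nonneg_right this (by positivity)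
  -- the pointwise inequality
  have hsumv : ∀ z : ℂ, ‖z‖ ^ 2 < 1 / 2 → Summable fun n => z ^ n • a n := by
    intro z hz
    refine Summable.of_norm ?_
    refine (hsum1 ‖z‖ (norm_nonneg z) (by nlinarith [norm_nonneg z])).congr fun n => ?_
    rw [norm_smul (z ^ n), norm_pow, mul_comm]
  have hpt : ∀ z : ℂ, ‖z‖ ^ 2 < 1 / 2 → Real.sqrt 2 * ‖z‖ ≤ ‖∑' n, z ^ n • a n‖ := by
    intro z hz
    have e1 : inner ℂ (lam z) (∑' n, z ^ n • a n) = ((Real.sqrt 2 : ℝ) : ℂ) * z := by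
      have e2 := (hsumv z hz).hasSum.mapL (innerSL ℂ (lam z))
      have e3 := hrel z hz
      have e5 : (fun n => (innerSL ℂ (lam z)) (z ^ n • a n)) = fun n : ℕ =>
          ((Real.sqrt (n + 1) : ℝ) : ℂ) * z ^ n * inner ℂ (lam z) (ψ n) := by
        funext n
        simp only [ha, innerSL_apply_apply, inner_smul_right]
        ring
      rw [e5] at e2
      exact e2.unique e3
    have e4 := norm_inner_le_norm (𝕜 := ℂ) (lam z) (∑' n, z ^ n • a n)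
    rw [e1, norm_mul, Complex.norm_real, Real.norm_of_nonneg (Real.sqrt_nonneg _)] at e4
    refine e4.trans ?_
    have := (hlam z hz).le
    nlinarith [norm_nonneg (∑' n, z ^ n • a n)]
  -- averaging
  set W : ℝ := ∑' n : ℕ, ((n : ℝ) + 1) * ‖ψ n‖ ^ 2 * (1 / 2) ^ n with hW
  have hW0 : 0 ≤ W := tsum_nonneg fun n => by positivity
  have hav : ∀ r : ℝ, 0 ≤ r → r ^ 2 < 1 / 2 → 2 * r ^ 2 ≤ W := by
    intro r hr hr2
    have hr1 : r < 1 := by nlinarith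
    have h2 : Summable fun n => ‖a n‖ ^ 2 * r ^ (2 * n) := by
      refine (hsum2 (r ^ 2) (by positivity) (by linarith)).congr fun n => ?_
      rw [han2, pow_mul]
    have h3 := avg hr (hsum1 r hr hr1) h2 (m := Real.sqrt 2 * r)
      (fun z hz => by
        have := hpt z (by rw [hz]; exact hr2)
        rwa [hz] at this) (by positivity)
    rw [mul_pow, Real.sq_sqrt (by norm_num)] at h3
    refine h3.trans ?_
    refine h2.tsum_le_tsum (fun n => ?_) (hsum2 (1 / 2) (by norm_num) (by norm_num))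
    rw [han2, pow_mul]
    exact mul_le_mul_of_nonneg_left (pow_le_pow_left₀ (by positivity) hr2.le n) (by positivity)
  have hW1 : 1 ≤ W := by
    by_contra hcon
    push Not at hcon
    have := hav (Real.sqrt ((1 + W) / 4)) (Real.sqrt_nonneg _)
      (by rw [Real.sq_sqrt (by linarith)]; linarith)
    rw [Real.sq_sqrt (by linarith)] at this
    linarith
  have hWs := hsum2 (1 / 2) (by norm_num) (by norm_num)
  have hd : Summable fun n : ℕ => ‖ψ n‖ ^ 2 - ((n : ℝ) + 1) * ‖ψ n‖ ^ 2 * (1 / 2) ^ n := hs.sub hWs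
  have hcoef : ∀ n : ℕ, ((n : ℝ) + 1) * (1 / 2) ^ n ≤ 1 := by
    intro n
    have : ((n : ℝ) + 1) ≤ 2 ^ n := by
      exact_mod_cast Nat.lt_two_pow_self (n := n)
    rw [one_div, inv_pow, ← div_eq_mul_inv, div_le_one (by positivity)]
    exact this
  have hdn : ∀ n : ℕ, 0 ≤ ‖ψ n‖ ^ 2 - ((n : ℝ) + 1) * ‖ψ n‖ ^ 2 * (1 / 2) ^ n := by
    intro n
    have := hcoef n
    have e : ((n : ℝ) + 1) * ‖ψ n‖ ^ 2 * (1 / 2) ^ n = (((n : ℝ) + 1) * (1 / 2) ^ n) * ‖ψ n‖ ^ 2 := by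
      ring
    rw [e]
    nlinarith [sq_nonneg ‖ψ n‖]
  have hdt : ∑' n : ℕ, (‖ψ n‖ ^ 2 - ((n : ℝ) + 1) * ‖ψ n‖ ^ 2 * (1 / 2) ^ n) ≤ 0 := by
    rw [hs.tsum_sub hWs]
    linarith
  have hz : ∀ n, 2 ≤ n → ψ n = 0 := by
    intro n hn
    have e1 := hd.le_tsum n fun m _ => hdn m
    have e2 : ((n : ℝ) + 1) * (1 / 2) ^ n < 1 := by
      have : ((n : ℝ) + 1) < 2 ^ n := by exact_mod_cast succ_lt_two_pow hn
      rw [one_div, inv_pow, ← div_eq_mul_inv, div_lt_one (by positivity)]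
      exact this
    have e : ((n : ℝ) + 1) * ‖ψ n‖ ^ 2 * (1 / 2) ^ n = (((n : ℝ) + 1) * (1 / 2) ^ n) * ‖ψ n‖ ^ 2 := by
      ring
    rw [e] at e1
    have e3 : ‖ψ n‖ ^ 2 ≤ 0 := by nlinarith [sq_nonneg ‖ψ n‖]
    have e4 : ‖ψ n‖ = 0 := by nlinarith [norm_nonneg (ψ n)]
    exact norm_eq_zero.1 e4
  have hsumeq : ∑' n, ‖ψ n‖ ^ 2 = ‖ψ 0‖ ^ 2 + ‖ψ 1‖ ^ 2 := by
    rw [tsum_eq_sum (s := Finset.range 2)]
    · simp [Finset.sum_range_succ]
    · intro n hn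
      rw [Finset.mem_range, not_lt] at hn
      rw [hz n hn]; simp
  have hWeq : W = ‖ψ 0‖ ^ 2 + ‖ψ 1‖ ^ 2 := by
    rw [hW, tsum_eq_sum (s := Finset.range 2)]
    · simp [Finset.sum_range_succ]; ring
    · intro n hn
      rw [Finset.mem_range, not_lt] at hn
      rw [hz n hn]; simp
  have hone : ‖ψ 0‖ ^ 2 + ‖ψ 1‖ ^ 2 = 1 := by
    rw [hsumeq] at h1; rw [hWeq] at hW1; linarith
  refine ⟨hz, hone, ?_⟩
  -- orthogonality
  have hv : ∀ z : ℂ, ∑' n, z ^ n • a n = ψ 0 + (((Real.sqrt 2 : ℝ) : ℂ) * z) • ψ 1 := by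
    intro z
    rw [tsum_eq_sum (s := Finset.range 2)]
    · simp only [Finset.sum_range_succ, Finset.sum_range_zero, zero_add, pow_zero, pow_one, ha,
        Nat.cast_zero, Nat.cast_one, Real.sqrt_one, Complex.ofReal_one, smul_smul]
      norm_num
      rw [mul_comm z]
    · intro n hn
      rw [Finset.mem_range, not_lt] at hn
      rw [ha]; simp only
      rw [hz n hn]; simp
  have hzeta : ∀ ζ : ℂ, ‖ζ‖ = 1 → 1 ≤ ‖ψ 0 + ζ • ψ 1‖ := by
    intro ζ hζ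
    have hcl : IsClosed {s : ℝ | s ≤ ‖ψ 0 + ((s : ℂ) * ζ) • ψ 1‖} :=
      isClosed_le continuous_id (by fun_prop)
    have hsub : Set.Ico (0 : ℝ) 1 ⊆ {s : ℝ | s ≤ ‖ψ 0 + ((s : ℂ) * ζ) • ψ 1‖} := by
      intro s hs'
      have hs2 : (Real.sqrt 2) ^ 2 = 2 := Real.sq_sqrt (by norm_num)
      have hs20 : (0 : ℝ) < Real.sqrt 2 := by positivity
      set z : ℂ := ((s / Real.sqrt 2 : ℝ) : ℂ) * ζ with hzd
      have hzn : ‖z‖ = s / Real.sqrt 2 := by
        rw [hzd, norm_mul, hζ, mul_one, Complex.norm_real, Real.norm_of_nonneg]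
        exact div_nonneg hs'.1 hs20.le
      have hz2 : ‖z‖ ^ 2 < 1 / 2 := by
        rw [hzn, div_pow, hs2]
        have := hs'.1
        have := hs'.2
        nlinarith
      have e := hpt z hz2
      rw [hv, hzn] at e
      have e1 : ((Real.sqrt 2 : ℝ) : ℂ) * z = (s : ℂ) * ζ := by
        rw [hzd, ← mul_assoc, ← Complex.ofReal_mul, mul_div_cancel₀ _ hs20.ne']
      rw [e1, mul_div_cancel₀ _ hs20.ne'] at e
      exact e
    have h2 := closure_minimal hsub hcl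
    rw [closure_Ico (by norm_num)] at h2
    have h3 : (1 : ℝ) ≤ ‖ψ 0 + (((1 : ℝ) : ℂ) * ζ) • ψ 1‖ := h2 (Set.right_mem_Icc.2 zero_le_one)
    simpa using h3
  by_contra hc
  set c : ℂ := inner ℂ (ψ 0) (ψ 1) with hcd
  have hc0 : 0 < ‖c‖ := norm_pos_iff.2 hc
  have h2 := hzeta (-(conj c) / ‖c‖) (by
    rw [norm_div, norm_neg, RCLike.norm_conj, Complex.norm_real, norm_norm, div_self hc0.ne'])
  have h3 : ‖ψ 0 + (-(conj c) / ‖c‖ : ℂ) • ψ 1‖ ^ 2 = 1 - 2 * ‖c‖ := by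
    rw [@norm_add_sq ℂ, inner_smul_right, norm_smul, ← hcd]
    have e1 : ‖(-(conj c) / ‖c‖ : ℂ)‖ = 1 := by
      rw [norm_div, norm_neg, RCLike.norm_conj, Complex.norm_real, norm_norm, div_self hc0.ne']
    have e2 : (-(conj c) / ‖c‖ : ℂ) * c = ((-‖c‖ : ℝ) : ℂ) := by
      have : conj c * c = ((‖c‖ : ℝ) : ℂ) ^ 2 := by
        rw [mul_comm, Complex.mul_conj, Complex.normSq_eq_norm_sq]; push_cast; ring
      have hc0' : ((‖c‖ : ℝ) : ℂ) ≠ 0 := by exact_mod_cast hc0.ne'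
      rw [div_mul_eq_mul_div, neg_mul, this]
      push_cast
      field_simp
    rw [e1, e2]
    simp only [RCLike.re_to_complex, Complex.ofReal_re]
    linarith
  nlinarith

end Pool.Agent.H159.MinC
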