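import Mathlib
import Pool.Agent.H159.MinC.Str

set_option autoImplicit false

/-! The tensor product with the Bergman space, and the function `ψ`. -/

open scoped BigOperators ComplexConjugate ComplexOrder InnerProductSpace
open Filter Topology

namespace Pool.Agent.H159.MinC

lemma psd_finsupp {X : Type*} (F : X → X → ℂ)
    (hF : ∀ (n : ℕ) (z : Fin n → X), (Matrix.of fun i j => F (z i) (z j)).PosSemidef)
    (c : X →₀ ℂ) :
    0 ≤ ∑ x ∈ c.support, ∑ y ∈ c.support, conj (c x) * F x y * c y := by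
  classical
  set S := c.support with hSdef
  have hS : (Matrix.of fun i j : S => F i j).PosSemidef := by
    have h := (hF S.card (fun i => (S.equivFin.symm i : X))).submatrix S.equivFin
    have e : (Matrix.of fun i j : S => F i j) = (Matrix.of fun i j : Fin S.card =>
        F (S.equivFin.symm i) (S.equivFin.symm j)).submatrix S.equivFin S.equivFin := by
      ext i j; simp
    rw [e]; exact h
  have h1 := hS.dotProduct_mulVec_nonneg (fun i => c i)
  refine h1.trans_eq ?_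
  simp only [dotProduct, Matrix.mulVec, Matrix.of_apply, Pi.star_apply]
  rw [← Finset.sum_coe_sort S (fun x => ∑ y ∈ S, conj (c x) * F x y * c y)]
  refine Finset.sum_congr rfl fun i _ => ?_
  rw [← Finset.sum_coe_sort S, Finset.mul_sum]
  refine Finset.sum_congr rfl fun j _ => ?_
  simp only [RCLike.star_def]
  ring

variable {H : Type*} [NormedAddCommGroup H] [InnerProductSpace ℂ H]

lemma mem_kap (z : {z : ℂ // ‖z‖ ^ 2 < 1 / 2}) (v : H) :
    Memℓp (fun n : ℕ => (((Real.sqrt (n + 1) : ℝ) : ℂ) * (conj (z : ℂ)) ^ n) • v) 2 := by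
  refine memℓp_gen ?_
  have h1 : (2 : ENNReal).toReal = 2 := by norm_num
  rw [h1]
  have hz1 : ‖(z : ℂ)‖ ^ 2 < 1 := by have := z.2; linarith
  refine ((summable_succ_mul (r := ‖(z : ℂ)‖ ^ 2) (by positivity) hz1).mul_right (‖v‖ ^ 2)).congr
    fun n => ?_
  rw [norm_smul, norm_mul, Complex.norm_real, Real.norm_of_nonneg (Real.sqrt_nonneg _), norm_pow,
    RCLike.norm_conj, Real.rpow_two, mul_pow, mul_pow, Real.sq_sqrt (by positivity)]
  ring

/-- `k_z ⊗ λ_z` -/
noncomputable def kap (lam : ℂ → H) (z : {z : ℂ // ‖z‖ ^ 2 < 1 / 2}) : lp (fun _ : ℕ => H) 2 :=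
  ⟨fun n : ℕ => (((Real.sqrt (n + 1) : ℝ) : ℂ) * (conj (z : ℂ)) ^ n) • lam z, mem_kap z _⟩

lemma kap_apply (lam : ℂ → H) (z : {z : ℂ // ‖z‖ ^ 2 < 1 / 2}) (n : ℕ) :
    (kap lam z : ∀ _ : ℕ, H) n = (((Real.sqrt (n + 1) : ℝ) : ℂ) * (conj (z : ℂ)) ^ n) • lam z := rfl

lemma inner_kap (lam : ℂ → H) (z w : {z : ℂ // ‖z‖ ^ 2 < 1 / 2}) :
    inner ℂ (kap lam z) (kap lam w) =
      1 / (1 - (z : ℂ) * conj (w : ℂ)) ^ 2 * inner ℂ (lam z) (lam w) := by
  have h1 := lp.hasSum_inner (𝕜 := ℂ) (kap lam z) (kap lam w)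
  have hx : ‖(z : ℂ) * conj (w : ℂ)‖ < 1 := by
    rw [norm_mul, RCLike.norm_conj]
    have := z.2
    have := w.2
    nlinarith [sq_nonneg (‖(z : ℂ)‖ - ‖(w : ℂ)‖)]
  have h2 := (hasSum_choose_mul_geometric_of_norm_lt_one 1 hx).mul_right
    (inner ℂ (lam z) (lam w) : ℂ)
  refine h1.unique ?_
  have e : (fun n : ℕ => inner ℂ ((kap lam z : ∀ _ : ℕ, H) n) ((kap lam w : ∀ _ : ℕ, H) n)) =
      fun n : ℕ => (((n + 1).choose 1 : ℕ) : ℂ) * ((z : ℂ) * conj (w : ℂ)) ^ n *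
        inner ℂ (lam z) (lam w) := by
    funext n
    rw [kap_apply, kap_apply, inner_smul_left, inner_smul_right, map_mul, map_pow,
      Complex.conj_conj, Complex.conj_ofReal, Nat.choose_one_right, mul_pow]
    have : ((Real.sqrt (n + 1) : ℝ) : ℂ) * ((Real.sqrt (n + 1) : ℝ) : ℂ) = ((n + 1 : ℕ) : ℂ) := by
      rw [← Complex.ofReal_mul, Real.mul_self_sqrt (by positivity)]
      push_cast; ring
    rw [← this]
    ring
  rw [e]
  convert h2 using 2

theorem exists_psi [CompleteSpace H] (lam : ℂ → H)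
    (hdom : ∀ (n : ℕ) (z : Fin n → ℂ), (∀ i, ‖z i‖ ^ 2 < 1 / 2) →
      (Matrix.of fun i j => 1 / (1 - z i * conj (z j)) ^ 2 * inner ℂ (lam (z i)) (lam (z j))
        - 2 * (z i * conj (z j))).PosSemidef) :
    ∃ ψ : ℕ → H, (Summable fun n => ‖ψ n‖ ^ 2) ∧ ∑' n, ‖ψ n‖ ^ 2 ≤ 1 ∧
      ∀ z : ℂ, ‖z‖ ^ 2 < 1 / 2 → HasSum (fun n : ℕ => ((Real.sqrt (n + 1) : ℝ) : ℂ) * z ^ n *
        inner ℂ (lam z) (ψ n)) ((Real.sqrt 2 : ℝ) * z) := by
  classical
  set X' := {z : ℂ // ‖z‖ ^ 2 < 1 / 2}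
  have hsq2 : ((Real.sqrt 2 : ℝ) : ℂ) * ((Real.sqrt 2 : ℝ) : ℂ) = 2 := by
    rw [← Complex.ofReal_mul, Real.mul_self_sqrt (by norm_num)]; norm_num
  obtain ⟨Ψ, hΨ1, hΨ2⟩ := riesz_dom (kap lam) (fun z : X' => ((Real.sqrt 2 : ℝ) : ℂ) * conj (z : ℂ))
    (by
      intro c
      have h0 := psd_finsupp (fun x y : X' => 1 / (1 - (x : ℂ) * conj (y : ℂ)) ^ 2 *
        inner ℂ (lam x) (lam y) - 2 * ((x : ℂ) * conj (y : ℂ)))
        (fun n z => hdom n (fun i => (z i : ℂ)) fun i => (z i).2) c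
      set A := Finsupp.linearCombination ℂ (fun z : X' => ((Real.sqrt 2 : ℝ) : ℂ) * conj (z : ℂ)) c
        with hA
      set B := Finsupp.linearCombination ℂ (kap lam) c with hB
      have eB : (((‖B‖ ^ 2 : ℝ)) : ℂ) = ∑ x ∈ c.support, ∑ y ∈ c.support, conj (c x) *
          (1 / (1 - (x : ℂ) * conj (y : ℂ)) ^ 2 * inner ℂ (lam x) (lam y)) * c y := by
        have : (((‖B‖ ^ 2 : ℝ)) : ℂ) = inner ℂ B B := by
          push_cast; exact (inner_self_eq_norm_sq_to_K B).symm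
        rw [this, hB, Finsupp.linearCombination_apply, Finsupp.sum, sum_inner]
        refine Finset.sum_congr rfl fun x _ => ?_
        rw [inner_sum]
        refine Finset.sum_congr rfl fun y _ => ?_
        rw [inner_smul_left, inner_smul_right, inner_kap]
        ring
      have eA : (((‖A‖ ^ 2 : ℝ)) : ℂ) = ∑ x ∈ c.support, ∑ y ∈ c.support, conj (c x) *
          (2 * ((x : ℂ) * conj (y : ℂ))) * c y := by
        have : (((‖A‖ ^ 2 : ℝ)) : ℂ) = conj A * A := by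
          rw [mul_comm, Complex.mul_conj, Complex.normSq_eq_norm_sq]
        rw [this, hA, Finsupp.linearCombination_apply, Finsupp.sum, map_sum, Finset.sum_mul]
        refine Finset.sum_congr rfl fun x _ => ?_
        rw [Finset.mul_sum]
        refine Finset.sum_congr rfl fun y _ => ?_
        simp only [smul_eq_mul, map_mul, Complex.conj_ofReal, Complex.conj_conj]
        rw [← hsq2]
        ring
      have e : ∑ x ∈ c.support, ∑ y ∈ c.support, conj (c x) *
          (1 / (1 - (x : ℂ) * conj (y : ℂ)) ^ 2 * inner ℂ (lam x) (lam y) -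
            2 * ((x : ℂ) * conj (y : ℂ))) * c y = ((‖B‖ ^ 2 - ‖A‖ ^ 2 : ℝ) : ℂ) := by
        rw [Complex.ofReal_sub, eB, eA, ← Finset.sum_sub_distrib]
        refine Finset.sum_congr rfl fun x _ => ?_
        rw [← Finset.sum_sub_distrib]
        refine Finset.sum_congr rfl fun y _ => ?_
        ring
      rw [e] at h0
      have h1 := Complex.zero_le_real.1 h0
      nlinarith [norm_nonneg A, norm_nonneg B])
  refine ⟨fun n => (Ψ : ∀ _ : ℕ, H) n, ?_, ?_, ?_⟩
  · have h := (lp.hasSum_norm (p := 2) (by norm_num) Ψ).summable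
    refine h.congr fun n => ?_
    rw [ENNReal.toReal_ofNat, Real.rpow_two]
  · have h := (lp.hasSum_norm (p := 2) (by norm_num) Ψ).tsum_eq
    rw [ENNReal.toReal_ofNat, Real.rpow_two] at h
    simp only [Real.rpow_two] at h
    rw [h]
    nlinarith [norm_nonneg Ψ]
  · intro z hz
    have h := lp.hasSum_inner (𝕜 := ℂ) Ψ (kap lam ⟨z, hz⟩)
    rw [hΨ2] at h
    have h2 : HasSum (fun n : ℕ => conj (inner ℂ ((Ψ : ∀ _ : ℕ, H) n)
        ((kap lam ⟨z, hz⟩ : ∀ _ : ℕ, H) n))) (((Real.sqrt 2 : ℝ) : ℂ) * z) := by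
      rw [Complex.hasSum_conj]
      simpa [map_mul] using h
    have e : (fun n : ℕ => conj (inner ℂ ((Ψ : ∀ _ : ℕ, H) n)
        ((kap lam ⟨z, hz⟩ : ∀ _ : ℕ, H) n))) = fun n : ℕ => ((Real.sqrt (n + 1) : ℝ) : ℂ) * z ^ n *
        inner ℂ (lam z) ((Ψ : ∀ _ : ℕ, H) n) := by
      funext n
      simp only [kap_apply, inner_smul_right, map_mul, map_pow, Complex.conj_conj,
        Complex.conj_ofReal, inner_conj_symm]
    rw [e] at h2
    exact h2

end Pool.Agent.H159.MinC
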